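import Pool.Agent.helper83.GR.Spec
import Pool.Agent.helper5.DD.NRM

set_option autoImplicit false

namespace Pool.Agent.GR

open Pool.Agent.helper58.DC Pool.Agent.DI

/-- the representation obtained by applying `σ` to the matrix entries -/
noncomputable def GLI_rep {H V : Type} [Group H] [AddCommGroup V] [Module ℂ V]
    {n : ℕ} (b : Module.Basis (Fin n) ℂ V)
    (ρ : Representation ℂ H V) (σ : ℂ ≃+* ℂ) : Representation ℂ H (Fin n → ℂ) where
  toFun g := Matrix.toLin' ((LinearMap.toMatrix b b (ρ g)).map σ)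
  map_one' := by
    rw [map_one, Module.End.one_eq_id, LinearMap.toMatrix_id, Matrix.map_one σ (map_zero σ) (map_one σ),
      Matrix.toLin'_one]
    rfl
  map_mul' g h := by
    rw [map_mul, Module.End.mul_eq_comp, LinearMap.toMatrix_comp b b b,
      Module.End.mul_eq_comp, ← Matrix.toLin'_mul]
    congr 1
    exact Matrix.map_mul (f := (σ : ℂ →+* ℂ))

theorem GLI_char {H V : Type} [Group H] [AddCommGroup V] [Module ℂ V] {n : ℕ}
    (b : Module.Basis (Fin n) ℂ V) (ρ : Representation ℂ H V) (σ : ℂ ≃+* ℂ) (g : H) :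
    (GLI_rep b ρ σ).character g = σ (ρ.character g) := by
  change LinearMap.trace ℂ _ (Matrix.toLin' ((LinearMap.toMatrix b b (ρ g)).map σ)) =
    σ (LinearMap.trace ℂ _ (ρ g))
  rw [Matrix.trace_toLin'_eq, LinearMap.trace_eq_matrix_trace ℂ b]
  exact (AddMonoidHom.map_trace (σ : ℂ →+ ℂ) _).symm

theorem GLI_Irr {H : Type} [Group H] [Finite H] (σ : ℂ ≃+* ℂ) {χ : H → ℂ}
    (hχ : χ ∈ Pool.Agent.helper49.Blk.Irr H) :
    (fun h => σ (χ h)) ∈ Pool.Agent.helper49.Blk.Irr H := by
  classical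
  have := Fintype.ofFinite H
  obtain ⟨V, _, _, _, ρ, hρ, rfl⟩ := hχ
  let b := Module.finBasis ℂ V
  refine ⟨Fin (Module.finrank ℂ V) → ℂ, inferInstance, inferInstance, inferInstance,
    GLI_rep b ρ σ, ?_, ?_⟩
  · apply Pool.Agent.DD.NRM H
    simp only [GLI_char]
    have h1 := (Pool.Agent.helper49.Blk.orth ρ ρ hρ hρ).2 rfl
    calc ∑ g : H, σ (ρ.character g) * σ (ρ.character g⁻¹)
        = σ (∑ g : H, ρ.character g * ρ.character g⁻¹) := by
          rw [map_sum]
          simp only [map_mul]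
      _ = _ := by rw [h1, map_natCast]
  · funext g
    exact GLI_char b ρ σ g

theorem GLI : GLI_stmt := by
  intro G _ _ H σ ψ hψ
  refine ⟨fun g hg => ?_, GLI_Irr σ hψ.2⟩
  change σ (ψ g) = 0
  rw [hψ.1 g hg, map_zero]

end Pool.Agent.GR
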