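import Pool.Agent.helper83.GR.Spec

set_option autoImplicit false

namespace Pool.Agent.GR

open Pool.Agent.helper58.DC Pool.Agent.DI

theorem GLP_trace {V : Type} [AddCommGroup V] [Module ℂ V] [FiniteDimensional ℂ V]
    (f : Module.End ℂ V) (N : ℕ) (hN : 0 < N) (hf : f ^ N = 1) (σ : ℂ ≃+* ℂ) (s : ℕ)
    (hσ : ∀ ζ : ℂ, ζ ^ N = 1 → σ ζ = ζ ^ s) :
    σ (LinearMap.trace ℂ V f) = LinearMap.trace ℂ V (f ^ s) := by
  classical
  have hss : f.IsSemisimple := by
    have hsep : (Polynomial.X ^ N - 1 : Polynomial ℂ).Separable := by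
      have h1 := (Polynomial.X_pow_sub_one_separable_iff (F := ℂ) (n := N)).2
        (by exact_mod_cast hN.ne')
      exact h1
    apply Module.End.isSemisimple_of_squarefree_aeval_eq_zero hsep.squarefree
    simp [hf]
  have htop : ⨆ μ : ℂ, f.eigenspace μ = ⊤ := by
    have h1 := Module.End.iSup_maxGenEigenspace_eq_top f
    have h2 : ∀ μ : ℂ, f.maxGenEigenspace μ = f.eigenspace μ := fun μ =>
      hss.isFinitelySemisimple.maxGenEigenspace_eq_eigenspace μ
    simpa only [h2] using h1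
  have hint : DirectSum.IsInternal (fun μ : ℂ => f.eigenspace μ) :=
    DirectSum.isInternal_submodule_of_iSupIndep_of_iSup_eq_top f.eigenspaces_iSupIndep htop
  have hfin : {μ : ℂ | f.eigenspace μ ≠ ⊥}.Finite := f.finite_hasEigenvalue
  have hmap : ∀ (k : ℕ) (μ : ℂ), Set.MapsTo (f ^ k) (f.eigenspace μ) (f.eigenspace μ) := by
    intro k μ
    exact Module.End.mapsTo_genEigenspace_of_comm (Commute.pow_right (Commute.refl f) k) μ 1
  have hact : ∀ (k : ℕ) (μ : ℂ) (v : V), v ∈ f.eigenspace μ → (f ^ k) v = μ ^ k • v := by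
    intro k μ v hv
    induction k with
    | zero => simp
    | succ k ih =>
      rw [pow_succ', Module.End.mul_apply, ih, map_smul, Module.End.mem_eigenspace_iff.1 hv,
        smul_smul, pow_succ]
  have htr : ∀ (k : ℕ), LinearMap.trace ℂ V (f ^ k) =
      ∑ μ ∈ hfin.toFinset, μ ^ k * (Module.finrank ℂ (f.eigenspace μ) : ℂ) := by
    intro k
    rw [LinearMap.trace_eq_sum_trace_restrict' hint hfin (hmap k)]
    apply Finset.sum_congr rfl
    intro μ _
    have h1 : (f ^ k).restrict (hmap k μ) = μ ^ k • LinearMap.id := by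
      apply LinearMap.ext
      intro v
      apply Subtype.ext
      exact hact k μ v v.2
    rw [h1, map_smul, LinearMap.trace_id, smul_eq_mul]
  have h1 := htr 1
  rw [pow_one] at h1
  rw [h1, htr s, map_sum]
  apply Finset.sum_congr rfl
  intro μ hμ
  rw [map_mul, map_natCast, pow_one]
  congr 1
  apply hσ
  rw [Set.Finite.mem_toFinset] at hμ
  obtain ⟨v, hv, hv0⟩ := Submodule.exists_mem_ne_zero_of_ne_bot hμ
  have h2 := hact N μ v hv
  rw [hf, Module.End.one_apply] at h2
  have h3 : (μ ^ N - 1) • v = 0 := by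
    rw [sub_smul, ← h2, one_smul, sub_self]
  rcases smul_eq_zero.1 h3 with h4 | h4
  · linear_combination h4
  · exact absurd h4 hv0

theorem GLP : GLP_stmt := by
  intro G _ _ σ s hs hσ H ψ hψ g
  obtain ⟨h0, V, _, _, _, ρ, hρ, hch⟩ := hψ
  have hN : 0 < Nat.card G := Nat.card_pos
  by_cases hg : g ∈ H
  · have h1 : ψ g = ρ.character ⟨g, hg⟩ := (congrFun hch ⟨g, hg⟩).symm
    have h2 : ψ (g ^ s) = ρ.character (⟨g, hg⟩ ^ s) := (congrFun hch (⟨g, hg⟩ ^ s)).symm
    rw [h1, h2]
    change σ (LinearMap.trace ℂ V (ρ ⟨g, hg⟩)) = LinearMap.trace ℂ V (ρ (⟨g, hg⟩ ^ s))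
    rw [map_pow]
    apply GLP_trace _ (Nat.card G) hN _ σ s hσ
    rw [← map_pow]
    have h3 : (⟨g, hg⟩ : H) ^ Nat.card G = 1 := by
      apply Subtype.ext
      exact pow_card_eq_one'
    rw [h3, map_one]
  · have h4 : g ^ s ∉ H := by
      intro h5
      apply hg
      have h6 : (orderOf g).Coprime s := (hs.symm).coprime_dvd_left (orderOf_dvd_natCard g)
      obtain ⟨m, hm⟩ := exists_pow_eq_self_of_coprime h6.symm
      rw [← hm]
      exact H.pow_mem h5 m
    rw [h0 g hg, h0 _ h4, map_zero]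

end Pool.Agent.GR
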